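import Pool.Agent.Helper43.AX.St

/-! MODULE CE of project AX (MP_b3ce06_al): for `c ∈ K₀` the element `E(c)` commutes with all
`F1(d)`. -/

set_option autoImplicit false

namespace Pool.Agent.Helper87.AX

open Pool.Agent.Helper43.AX

section

variable {G : Type} [Group G] {L : Type} [CommRing L] {a b t l : G} {x : Lˣ} {E : L → G}
  {σ : L ≃+* L} {m : ℕ}

/-- Every element of `P` acts on `E(L)` as `d ↦ u τ(d)` with a unit `u` and a ring automorphism
`τ`. -/
theorem act_P (R : Rd m a t l x E σ) {g : G} (hg : g ∈ P t l E) :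
    ∃ (u : Lˣ) (τ : L ≃+* L), ∀ d, g⁻¹ * E d * g = E ((u : L) * τ d) := by
  unfold P at hg
  induction hg using Subgroup.closure_induction with
  | mem y hy =>
    rcases hy with ⟨c, rfl⟩ | hy
    · refine ⟨1, RingEquiv.refl L, fun d => ?_⟩
      have hc : E c * E d = E d * E c := by rw [← R.add, ← R.add, add_comm]
      rw [mul_assoc, ← hc, inv_mul_cancel_left]
      simp
    · rcases hy with rfl | hy
      · exact ⟨x, RingEquiv.refl L, fun d => R.tE d⟩
      · rw [Set.mem_singleton_iff] at hy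
        subst hy
        refine ⟨1, σ, fun d => ?_⟩
        rw [R.lE]; simp
  | one => exact ⟨1, RingEquiv.refl L, fun d => by simp⟩
  | mul g h _ _ ihg ihh =>
    obtain ⟨u, τ, hu⟩ := ihg
    obtain ⟨w, ρ, hw⟩ := ihh
    refine ⟨w * Units.map (ρ : L →* L) u, τ.trans ρ, fun d => ?_⟩
    calc (g * h)⁻¹ * E d * (g * h) = h⁻¹ * (g⁻¹ * E d * g) * h := by group
      _ = E ((w : L) * ρ ((u : L) * τ d)) := by rw [hu, hw]
      _ = _ := by
        congr 1
        rw [map_mul, Units.val_mul, ← mul_assoc]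
        rfl
  | inv g _ ihg =>
    obtain ⟨u, τ, hu⟩ := ihg
    refine ⟨Units.map (τ.symm : L →* L) u⁻¹, τ.symm, fun d => ?_⟩
    have h1 := hu (τ.symm (((u⁻¹ : Lˣ) : L) * d))
    rw [RingEquiv.apply_symm_apply, Units.mul_inv_cancel_left] at h1
    have h2 : ((Units.map (τ.symm : L →* L) u⁻¹ : Lˣ) : L) * τ.symm d
        = τ.symm (((u⁻¹ : Lˣ) : L) * d) := by
      rw [map_mul]; rfl
    rw [h2, ← h1]
    group

/-- If `E(c)` acts on `F1(L)` as `d ↦ u τ(d)` then `E((x-1)c)` acts as a multiplication by a unit. -/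
theorem step (R : Rd m a t l x E σ) {X : Lˣ}
    (hX : ∀ c, t⁻¹ * F1 a b E c * t = F1 a b E ((X : L) * c)) {c : L} {u : Lˣ} {τ : L ≃+* L}
    (hc : ∀ d, (E c)⁻¹ * F1 a b E d * E c = F1 a b E ((u : L) * τ d)) (d : L) :
    (E (((x : L) - 1) * c))⁻¹ * F1 a b E d * E (((x : L) - 1) * c)
      = F1 a b E (τ.symm (X : L) * ((X⁻¹ : Lˣ) : L) * d) := by
  have hneg : ∀ y, E (-y) = (E y)⁻¹ := by
    intro y
    have h0 : E 0 = 1 := by
      have h0 := R.add 0 0
      rw [add_zero] at h0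
      exact mul_eq_left.1 h0.symm
    apply eq_inv_of_mul_eq_one_left
    rw [← R.add, neg_add_cancel, h0]
  have hE : E (((x : L) - 1) * c) = t⁻¹ * E c * t * (E c)⁻¹ := by
    rw [R.tE, ← hneg, ← R.add]
    congr 1
    ring
  have hX' : ∀ e, t * F1 a b E e * t⁻¹ = F1 a b E (((X⁻¹ : Lˣ) : L) * e) := by
    intro e
    have h := hX (((X⁻¹ : Lˣ) : L) * e)
    rw [Units.mul_inv_cancel_left] at h
    rw [← h]; group
  have hc' : ∀ e, E c * F1 a b E ((u : L) * τ e) * (E c)⁻¹ = F1 a b E e := by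
    intro e
    rw [← hc]; group
  have e1 : (X : L) * ((u : L) * τ (((X⁻¹ : Lˣ) : L) * d))
      = (u : L) * τ (τ.symm (X : L) * ((X⁻¹ : Lˣ) : L) * d) := by
    rw [map_mul, map_mul, map_mul, RingEquiv.apply_symm_apply]
    ring
  rw [hE]
  calc (t⁻¹ * E c * t * (E c)⁻¹)⁻¹ * F1 a b E d * (t⁻¹ * E c * t * (E c)⁻¹)
      = E c * (t⁻¹ * ((E c)⁻¹ * (t * F1 a b E d * t⁻¹) * E c) * t) * (E c)⁻¹ := by group
    _ = E c * F1 a b E ((X : L) * ((u : L) * τ (((X⁻¹ : Lˣ) : L) * d))) * (E c)⁻¹ := by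
      rw [hX', hc, hX]
    _ = _ := by rw [e1, hc']

end

theorem hCE (hVC : StVC) (hID : StID) : StCE := by
  intro p q G _ a b t l L _ x E σ C
  have R := C.rd
  have hX := (hVC p q G a b t l L x E σ C).1
  obtain ⟨I, hI, -, -⟩ := hID p q G a b t l L x E σ C
  -- the unit `x - 1`
  obtain ⟨y, hy⟩ : ∃ y : Lˣ, (y : L) = (x : L) - 1 := by
    refine ⟨Units.map (σ.symm : L →* L) x, ?_⟩
    show σ.symm (x : L) = (x : L) - 1
    rw [RingEquiv.symm_apply_eq, map_sub, map_one, R.sx, add_sub_cancel_right]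
  have hdiv : ∀ c, InK a b t l E c → ∃ c', InK a b t l E c' ∧ c = ((x : L) - 1) * c' := by
    intro c hc
    refine ⟨((y⁻¹ : Lˣ) : L) * c, ?_, ?_⟩
    · rw [← hI] at hc ⊢
      exact I.mul_mem_left _ hc
    · rw [← hy, Units.mul_inv_cancel_left]
  -- first: units and automorphisms
  have h1 : ∀ c, InK a b t l E c → ∃ (u : Lˣ) (τ : L ≃+* L),
      ∀ d, (E c)⁻¹ * F1 a b E d * E c = F1 a b E ((u : L) * τ d) := by
    intro c hc
    obtain ⟨u, τ, hu⟩ := act_P R hc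
    refine ⟨u, τ, fun d => ?_⟩
    unfold F1
    rw [← hu]
    group
  -- second: units only
  have h2 : ∀ c, InK a b t l E c → ∃ w : Lˣ,
      ∀ d, (E c)⁻¹ * F1 a b E d * E c = F1 a b E ((w : L) * d) := by
    intro c hc
    obtain ⟨c', hc', rfl⟩ := hdiv c hc
    obtain ⟨u, τ, hu⟩ := h1 c' hc'
    refine ⟨Units.map (τ.symm : L →* L) ((x⁻¹) ^ (q ^ p)) * ((x⁻¹) ^ (q ^ p))⁻¹, fun d => ?_⟩
    rw [step R hX hu, Units.val_mul]
    rfl
  -- third: commutation
  intro c hc d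
  obtain ⟨c', hc', rfl⟩ := hdiv c hc
  obtain ⟨w, hw⟩ := h2 c' hc'
  have h3 := step (τ := RingEquiv.refl L) R hX hw d
  have h5 : (RingEquiv.refl L).symm (((x⁻¹) ^ (q ^ p) : Lˣ) : L) = (((x⁻¹) ^ (q ^ p) : Lˣ) : L) :=
    rfl
  rw [h5, Units.mul_inv, one_mul] at h3
  have h4 : E (((x : L) - 1) * c') * ((E (((x : L) - 1) * c'))⁻¹ * F1 a b E d *
      E (((x : L) - 1) * c')) = F1 a b E d * E (((x : L) - 1) * c') := by group
  rw [h3] at h4
  exact h4

end Pool.Agent.Helper87.AX
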